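import Mathlib
import Pool.Agent.Lib.MP_6d0c2f_al.RingS

/-!
There is a super-decomposable abelian group whose endomorphism ring is non-commutative and
centrally essential.
-/

set_option autoImplicit false

namespace Pool.Agent.Results.MP_6d0c2f_al.SuperDecomposable

open Pool.Agent.Lib.MP_6d0c2f_al

theorem split_summand {A : Type} [AddCommGroup A]
    (h : ∀ e : AddMonoid.End A, e ≠ 0 → ∃ c : AddMonoid.End A,
      c ∈ Subring.center (AddMonoid.End A) ∧ c * c = c ∧ e * c ≠ 0 ∧ e * (1 - c) ≠ 0)
    (B C : AddSubgroup A) (hBC : IsCompl B C) (hB : B ≠ ⊥) :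
    ∃ X Y : AddSubgroup B, IsCompl X Y ∧ X ≠ ⊥ ∧ Y ≠ ⊥ := by
  have hc' : IsCompl (AddSubgroup.toIntSubmodule B) (AddSubgroup.toIntSubmodule C) :=
    (AddSubgroup.toIntSubmodule (M := A)).isCompl hBC
  let e : AddMonoid.End A :=
    ((AddSubgroup.toIntSubmodule B).projection (AddSubgroup.toIntSubmodule C) hc').toAddMonoidHom
  have he1 : ∀ a, e a ∈ B := fun a => Submodule.projection_apply_mem hc' a
  have he2 : ∀ b ∈ B, e b = b := fun b hb =>
    Submodule.projection_apply_left hc' (⟨b, hb⟩ : AddSubgroup.toIntSubmodule B)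
  have he0 : e ≠ 0 := by
    intro h0
    apply hB
    rw [eq_bot_iff]
    intro b hb
    rw [AddSubgroup.mem_bot, ← he2 b hb, h0]
    rfl
  obtain ⟨c, hcz, hcc, h1, h2⟩ := h e he0
  have hcomm : ∀ a, e (c a) = c (e a) := fun a =>
    congrArg (fun f : AddMonoid.End A => f a) (Subring.mem_center_iff.1 hcz e)
  have hcc' : ∀ a, c (c a) = c a := fun a => congrArg (fun f : AddMonoid.End A => f a) hcc
  have hcB : ∀ b ∈ B, c b ∈ B := fun b hb => by
    rw [← he2 b hb, ← hcomm]; exact he1 _
  let X : AddSubgroup B :=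
    { carrier := {b | c b = b}
      add_mem' := fun {a b} ha hb => by
        change c ((a : A) + b) = a + b
        rw [map_add, ha, hb]
      zero_mem' := map_zero c
      neg_mem' := fun {a} ha => by
        change c (-(a : A)) = -a
        rw [map_neg, ha] }
  let Y : AddSubgroup B :=
    { carrier := {b | c b = 0}
      add_mem' := fun {a b} ha hb => by
        change c ((a : A) + b) = 0
        rw [map_add, ha, hb, add_zero]
      zero_mem' := map_zero c
      neg_mem' := fun {a} ha => by
        change c (-(a : A)) = 0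
        rw [map_neg, ha, neg_zero] }
  refine ⟨X, Y, ⟨?_, ?_⟩, ?_, ?_⟩
  · rw [disjoint_iff, eq_bot_iff]
    rintro b ⟨hx, hy⟩
    rw [AddSubgroup.mem_bot]
    apply Subtype.ext
    exact (show c b = b from hx).symm.trans hy
  · rw [codisjoint_iff, eq_top_iff]
    intro b _
    have : b = ⟨c b, hcB b b.2⟩ + (b - ⟨c b, hcB b b.2⟩) := by abel
    rw [this]
    apply AddSubgroup.add_mem_sup
    · exact hcc' b
    · change c ((b : A) - c b) = 0
      rw [map_sub, hcc', sub_self]
  · intro hX
    apply h1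
    ext a
    have hm : (⟨e (c a), he1 _⟩ : B) ∈ X := by
      change c (e (c a)) = e (c a)
      rw [← hcomm, hcc']
    rw [hX, AddSubgroup.mem_bot] at hm
    exact congrArg Subtype.val hm
  · intro hY
    apply h2
    ext a
    have hm : (⟨e (a - c a), he1 _⟩ : B) ∈ Y := by
      change c (e (a - c a)) = 0
      rw [← hcomm, map_sub, hcc', sub_self, map_zero]
    rw [hY, AddSubgroup.mem_bot] at hm
    exact congrArg Subtype.val hm

theorem map_center {R E : Type} [Ring R] [Ring E] (f : R ≃+* E) (c : R)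
    (hc : c ∈ Subring.center R) : f c ∈ Subring.center E := by
  rw [Subring.mem_center_iff] at hc ⊢
  intro g
  obtain ⟨r, rfl⟩ := f.surjective g
  rw [← map_mul, ← map_mul, hc]

/-- There is an abelian group `A` such that (1) every nonzero direct summand `B` of `A` is
a direct sum of two nonzero subgroups, (2) `End A` is not commutative, and (3) `End A` is
centrally essential. -/
theorem result :
    ∃ (A : Type) (_ : AddCommGroup A),
      (∀ B : AddSubgroup A, (∃ C : AddSubgroup A, IsCompl B C) → B ≠ ⊥ →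
        ∃ X Y : AddSubgroup B, IsCompl X Y ∧ X ≠ ⊥ ∧ Y ≠ ⊥) ∧
      (∃ f g : AddMonoid.End A, f * g ≠ g * f) ∧
      (∀ a : AddMonoid.End A, a ≠ 0 → ∃ x y : AddMonoid.End A,
        x ∈ Subring.center (AddMonoid.End A) ∧ y ∈ Subring.center (AddMonoid.End A) ∧
          x ≠ 0 ∧ y ≠ 0 ∧ a * x = y) := by
  obtain ⟨A, inst, ⟨f⟩⟩ := exists_group 2
  refine ⟨A, inst, ?_, ?_, ?_⟩
  · rintro B ⟨C, hBC⟩ hB
    refine split_summand ?_ B C hBC hB
    intro e he
    obtain ⟨r, rfl⟩ := f.surjective e
    obtain ⟨c, h1, h2, h3, h4⟩ := split_RR 2 r (fun h => he (by rw [h, map_zero]))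
    refine ⟨f c, map_center f c h1, by rw [← map_mul, h2], ?_, ?_⟩
    · rw [← map_mul]
      exact fun h => h3 (f.injective (by rw [h, map_zero]))
    · rw [← map_one f, ← map_sub, ← map_mul]
      exact fun h => h4 (f.injective (by rw [h, map_zero]))
  · obtain ⟨r, s, h⟩ := Six.noncomm (B0 2)
    exact ⟨f r, f s, fun h' => h (f.injective (by rw [map_mul, map_mul]; exact h'))⟩
  · intro e he
    obtain ⟨r, rfl⟩ := f.surjective e
    obtain ⟨c, d, h1, h2, h3, h4, h5⟩ :=
      Six.centrallyEssential (B0 2) r (fun h => he (by rw [h, map_zero]))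
    exact ⟨f c, f d, map_center f c h1, map_center f d h2,
      fun h => h3 (f.injective (by rw [h, map_zero])),
      fun h => h4 (f.injective (by rw [h, map_zero])), by rw [← map_mul, h5]⟩

end Pool.Agent.Results.MP_6d0c2f_al.SuperDecomposable
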